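import Mathlib

open Set Filter Topology Finset
open scoped RealInnerProductSpace Pointwise

namespace Pool.Agent.Results.MP_be7f3b_co.Holds

lemma pot {ι : Type} [Fintype ι] [DecidableEq ι] (w : ι → ι → ℝ) (h0 : ∀ i, w i i = 0)
    (h : ∀ σ : Equiv.Perm ι, ∑ i, w i (σ i) ≤ 0) {ε : ℝ} (hε : 0 < ε) :
    ∃ φ : ι → ℝ, ∀ i j, w i j - φ i + φ j < ε := by
  by_contra hn
  push Not at hn
  let L : (ι → ℝ) →ₗ[ℝ] (ι × ι → ℝ) :=
    { toFun := fun φ p => φ p.2 - φ p.1
      map_add' := fun a b => by ext; simp; ring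
      map_smul' := fun a b => by ext; simp; ring }
  let W : ι × ι → ℝ := fun p => w p.1 p.2
  obtain ⟨f, u, h1, h2⟩ := geometric_hahn_banach_open (s := Set.pi univ fun _ : ι × ι => Iio ε)
    (t := (fun x => W + x) '' (L '' univ)) (convex_pi fun _ _ => convex_Iio ε)
    (isOpen_set_pi finite_univ fun _ _ => isOpen_Iio)
    ((convex_univ.linear_image L).translate W) (by
      rw [Set.disjoint_left]
      rintro _ hx ⟨_, ⟨φ, -, rfl⟩, rfl⟩
      obtain ⟨i, j, k⟩ := hn φ
      have : w i j + (φ j - φ i) < ε := hx (i, j) trivial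
      linarith)
  have u0 : 0 < u := by simpa using h1 0 fun _ _ => hε
  let y : ι × ι → ℝ := fun p => f (Pi.single p 1)
  have fy : ∀ x, f x = ∑ p, x p * y p := fun x => by
    conv_lhs => rw [pi_eq_sum_univ' x]
    simp [y, map_sum]
  have y0 : ∀ p, 0 ≤ y p := by
    intro p
    by_contra k
    push Not at k
    have := h1 ((u / y p) • Pi.single p 1) fun q _ => by
      have : u / y p < 0 := div_neg_of_pos_of_neg u0 k
      by_cases e : q = p
      · subst e; simp; linarith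
      · simpa [e] using hε
    rw [map_smul, smul_eq_mul, div_mul_cancel₀ _ k.ne] at this
    exact lt_irrefl _ this
  have fL : ∀ φ, f (L φ) = 0 := by
    intro φ
    by_contra k
    have := h2 _ ⟨_, ⟨((u - 1 - f W) / f (L φ)) • φ, trivial, rfl⟩, rfl⟩
    simp only [map_add, map_smul, smul_eq_mul, div_mul_cancel₀ _ k] at this
    linarith
  have fW : u ≤ f W := by simpa using h2 _ ⟨_, ⟨0, trivial, rfl⟩, rfl⟩
  have circ : ∀ i, ∑ j, y (j, i) = ∑ j, y (i, j) := by
    intro i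
    have := fL (Pi.single i 1)
    rw [fy, Fintype.sum_prod_type] at this
    simp only [L, LinearMap.coe_mk, AddHom.coe_mk, sub_mul, Finset.sum_sub_distrib, Pi.single_apply,
      ite_mul, one_mul, zero_mul, Finset.sum_ite_eq', Finset.mem_univ, if_true,
      Finset.sum_ite_irrel, Finset.sum_const_zero] at this
    linarith
  set M := ∑ i, ∑ j, y (i, j) + 1 with hM
  have M0 : 0 < M := by
    have : 0 ≤ ∑ i, ∑ j, y (i, j) := sum_nonneg fun _ _ => sum_nonneg fun _ _ => y0 _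
    linarith
  have row : ∀ i, ∑ j, y (i, j) ≤ M := fun i => by
    have := single_le_sum (f := fun i => ∑ j, y (i, j)) (s := Finset.univ)
      (fun _ _ => sum_nonneg fun _ _ => y0 _) (Finset.mem_univ i)
    linarith
  obtain ⟨c, c0, -, c2⟩ := exists_eq_sum_perm_of_mem_doublyStochastic (R := ℝ)
    (M := Matrix.of fun i j => y (i, j) / M + if i = j then 1 - (∑ k, y (i, k)) / M else 0) (by
      rw [mem_doublyStochastic_iff_sum]
      refine ⟨fun i j => add_nonneg (div_nonneg (y0 _) M0.le) ?_, fun i => ?_, fun j => ?_⟩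
      · split_ifs
        · exact sub_nonneg.2 ((div_le_one M0).2 (row i))
        · rfl
      · simp [Finset.sum_add_distrib, ← Finset.sum_div]
      · simp [Finset.sum_add_distrib, ← Finset.sum_div, circ])
  have e1 : ∑ i, ∑ j, (∑ σ, c σ • σ.permMatrix ℝ) i j * w i j = ∑ σ, c σ * ∑ i, w i (σ i) := by
    simp only [Matrix.sum_apply, Finset.sum_mul, Finset.mul_sum]
    simp_rw [Finset.sum_comm (t := (Finset.univ : Finset (Equiv.Perm ι)))]
    refine Finset.sum_congr rfl fun σ _ => Finset.sum_congr rfl fun i _ => ?_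
    simp [PEquiv.toMatrix_apply, Equiv.toPEquiv_apply]
  rw [c2] at e1
  have e2 : f W / M = ∑ σ, c σ * ∑ i, w i (σ i) := by
    rw [← e1, fy, Fintype.sum_prod_type]
    simp only [Matrix.of_apply, add_mul, ite_mul, zero_mul, Finset.sum_add_distrib,
      Finset.sum_ite_eq, Finset.mem_univ, if_true, h0, mul_zero, add_zero,
      Finset.sum_div, W]
    exact Finset.sum_congr rfl fun _ _ => Finset.sum_congr rfl fun _ _ => by ring
  have : f W / M ≤ 0 := e2 ▸ sum_nonpos fun σ _ => mul_nonpos_of_nonneg_of_nonpos (c0 σ) (h σ)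
  have := div_pos (u0.trans_le fW) M0
  linarith

variable {V : Type} [NormedAddCommGroup V] [InnerProductSpace ℝ V]

lemma exmin [FiniteDimensional ℝ V] {f : V → ℝ} (hf : Continuous f) (p : V) (C : ℝ)
    (h : ∀ o, ‖p - o‖ - C ≤ f o) : ∃ o, ∀ x, f o ≤ f x := by
  refine hf.exists_forall_le (tendsto_atTop_mono h ?_)
  refine tendsto_atTop_add_const_right _ (-C) ?_
  simpa only [← dist_eq_norm] using tendsto_dist_left_cocompact_atTop p

lemma dirn {A B : Set V} (hA : A.Finite) (hB : B.Finite) (nA : A.Nonempty) (nB : B.Nonempty)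
    (h : ∀ a ∈ A, ∀ b ∈ B, 0 < ⟪a, b⟫) : ∃ z : V, ∀ a ∈ A, ∀ b ∈ B, 0 < ⟪z, a⟫ + ⟪z, b⟫ := by
  have cv := (convex_convexHull ℝ A).add (convex_convexHull ℝ B)
  obtain ⟨z, hz, hm⟩ := exists_norm_eq_iInf_of_complete_convex
    (nA.convexHull.add nB.convexHull) ((hA.isCompact_convexHull ℝ).add
      (hB.isCompact_convexHull ℝ)).isComplete cv 0
  rw [norm_eq_iInf_iff_real_inner_le_zero cv hz] at hm
  refine ⟨z, fun a ha b hb => ?_⟩
  have k := hm (a + b) (Set.add_mem_add (subset_convexHull ℝ A ha) (subset_convexHull ℝ B hb))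
  rw [zero_sub, inner_neg_left, inner_sub_right, inner_add_right, real_inner_self_eq_norm_sq] at k
  obtain ⟨U, hU, W, hW, rfl⟩ := hz
  have hs : ∀ x : V, Convex ℝ {y : V | 0 < ⟪x, y⟫} := fun x =>
    convex_halfSpace_gt (innerₛₗ ℝ x).isLinear 0
  have h1 : ∀ b ∈ B, 0 < ⟪U, b⟫ := fun b hb => by
    rw [real_inner_comm]
    exact convexHull_min (fun a ha => by simpa [real_inner_comm] using h a ha b hb) (hs b) hU
  have h2 : 0 < ⟪U, W⟫ := convexHull_min h1 (hs U) hW
  have := norm_add_sq_real U W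
  simp only at k ⊢
  nlinarith [sq_nonneg ‖U‖, sq_nonneg ‖W‖]

lemma dn {p o : V} (h : p ≠ o) (z : V) :
    HasDerivAt (fun t : ℝ => ‖p - (o + t • z)‖) (-⟪z, ‖p - o‖⁻¹ • (p - o)⟫) 0 := by
  have l : HasDerivAt (fun t : ℝ => p - (o + t • z)) (-z) 0 := by
    simpa using (((hasDerivAt_id (0 : ℝ)).smul_const z).const_add o).const_sub p
  have n : 0 < ‖p - o‖ := norm_pos_iff.2 (sub_ne_zero.2 h)
  have := l.norm_sq.sqrt (by simpa using sub_ne_zero.2 h)
  simp only [Real.sqrt_sq (norm_nonneg _), zero_smul, add_zero] at this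
  convert this using 1
  rw [real_inner_smul_right, inner_neg_right, real_inner_comm]
  field_simp

lemma key [FiniteDimensional ℝ V] {ι : Type} [Fintype ι] [Nonempty ι] (r b : ι → V) (α β : ι → ℝ)
    (h : ∀ i j, ‖r i - b j‖ ≤ α i + β j) :
    ∃ o, ∀ i j, ‖r i - o‖ + ‖b j - o‖ ≤ √2 * (α i + β j) := by
  let g : ι × ι → V → ℝ := fun p o => ‖r p.1 - o‖ + ‖b p.2 - o‖ - √2 * (α p.1 + β p.2)
  let F : V → ℝ := fun o => univ.sup' univ_nonempty fun p => g p o
  have le : ∀ p o, g p o ≤ F o := fun p o => le_sup' (fun p => g p o) (Finset.mem_univ p)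
  obtain ⟨i0⟩ := ‹Nonempty ι›
  obtain ⟨o, ho⟩ := exmin (f := F) (Continuous.finset_sup'_apply _ fun p _ => by fun_prop) (r i0)
    (√2 * (α i0 + β i0)) fun o => by linarith [le (i0, i0) o, norm_nonneg (b i0 - o)]
  refine ⟨o, fun i j => ?_⟩
  by_contra hc
  have F0 : 0 < F o := by linarith [le (i, j) o, not_le.1 hc]
  obtain ⟨q, -, hq⟩ := exists_mem_eq_sup' univ_nonempty fun p => g p o
  have act : ∀ i j, g (i, j) o = F o ↔ g (i, q.2) o = F o ∧ g (q.1, j) o = F o := by
    intro i j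
    have a := le (i, q.2) o
    have b := le (q.1, j) o
    have c := le (i, j) o
    have d : g (i, q.2) o + g (q.1, j) o = g (i, j) o + F o := by
      change _ = _ + univ.sup' _ _
      rw [hq]; simp only [g]; ring
    exact ⟨fun e => ⟨by linarith, by linarith⟩, fun e => by linarith [e.1, e.2]⟩
  have pos : ∀ i j, g (i, j) o = F o → 0 < ⟪r i - o, b j - o⟫ := by
    intro i j e
    have a := norm_sub_sq_real (r i - o) (b j - o)
    rw [sub_sub_sub_cancel_right] at a
    have s : √2 * √2 = 2 := Real.mul_self_sqrt zero_le_two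
    have c : √2 * ‖r i - b j‖ < ‖r i - o‖ + ‖b j - o‖ := by
      have := mul_le_mul_of_nonneg_left (h i j) (Real.sqrt_nonneg 2)
      simp only [g] at e
      linarith
    have d := mul_self_lt_mul_self (by positivity) c
    have d' : √2 * ‖r i - b j‖ * (√2 * ‖r i - b j‖) = 2 * ‖r i - b j‖ ^ 2 := by
      linear_combination ‖r i - b j‖ ^ 2 * s
    nlinarith [sq_nonneg (‖r i - o‖ - ‖b j - o‖)]
  have ne : ∀ i j, g (i, j) o = F o → r i ≠ o ∧ b j ≠ o := fun i j e =>
    ⟨fun k => by simpa [k] using pos i j e, fun k => by simpa [k] using pos i j e⟩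
  obtain ⟨z, hz⟩ := dirn (A := (fun i => ‖r i - o‖⁻¹ • (r i - o)) '' {i | g (i, q.2) o = F o})
    (B := (fun j => ‖b j - o‖⁻¹ • (b j - o)) '' {j | g (q.1, j) o = F o})
    ((Set.toFinite _).image _) ((Set.toFinite _).image _) ⟨_, q.1, hq.symm, rfl⟩
    ⟨_, q.2, hq.symm, rfl⟩ (by
      rintro _ ⟨i, hi, rfl⟩ _ ⟨j, hj, rfl⟩
      have e := (act i j).2 ⟨hi, hj⟩
      have n1 := norm_pos_iff.2 (sub_ne_zero.2 (ne i j e).1)
      have n2 := norm_pos_iff.2 (sub_ne_zero.2 (ne i j e).2)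
      have := pos i j e
      simp only [real_inner_smul_left, real_inner_smul_right]
      positivity)
  have ev : ∀ p, ∀ᶠ t : ℝ in 𝓝[>] 0, g p (o + t • z) < F o := by
    rintro ⟨i, j⟩
    rcases (le (i, j) o).eq_or_lt with e | e
    · have d := ((dn (ne i j e).1 z).fun_add (dn (ne i j e).2 z)).sub_const (√2 * (α i + β j))
      have k := hz _ ⟨i, ((act i j).1 e).1, rfl⟩ _ ⟨j, ((act i j).1 e).2, rfl⟩
      filter_upwards [d.tendsto_slope_zero_right.eventually (gt_mem_nhds (a := 0) (by linarith)),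
        self_mem_nhdsWithin] with t h1 h2
      have h2 : 0 < t := h2
      simp only [zero_add, zero_smul, add_zero, smul_eq_mul] at h1
      have := (mul_neg_iff.1 h1).resolve_right fun k => absurd k.1 (by simp [h2.le])
      simp only [g] at e ⊢
      linarith [this.2]
    · refine Eventually.filter_mono nhdsWithin_le_nhds
        (ContinuousAt.eventually_lt (by fun_prop) continuousAt_const ?_)
      simpa using e
  obtain ⟨t, ht⟩ := (eventually_all.2 ev).exists
  exact absurd (ho (o + t • z)) (not_le.2 ((sup'_lt_iff _).2 fun p _ => ht p))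

lemma fd [FiniteDimensional ℝ V] {n : ℕ} (r b : Fin (n + 1) → V)
    (h : ∀ σ : Equiv.Perm (Fin (n + 1)), ∑ i, ‖r i - b (σ i)‖ ≤ ∑ i, ‖r i - b i‖) :
    ∃ o, ∀ i, ‖r i - o‖ + ‖b i - o‖ ≤ √2 * ‖r i - b i‖ := by
  let g : Fin (n + 1) → V → ℝ := fun i o => ‖r i - o‖ + ‖b i - o‖ - √2 * ‖r i - b i‖
  let F : V → ℝ := fun o => univ.sup' univ_nonempty fun p => g p o
  have le : ∀ p o, g p o ≤ F o := fun p o => le_sup' (fun p => g p o) (Finset.mem_univ p)
  obtain ⟨o, ho⟩ := exmin (f := F) (Continuous.finset_sup'_apply _ fun p _ => by fun_prop) (r 0)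
    (√2 * ‖r 0 - b 0‖) fun o => by linarith [le 0 o, norm_nonneg (b 0 - o)]
  refine ⟨o, fun i => le_of_forall_pos_le_add fun ε hε => ?_⟩
  obtain ⟨φ, hφ⟩ := pot (fun i j => ‖r i - b j‖ - ‖r j - b j‖) (fun i => sub_self _) (fun σ => by
    rw [Finset.sum_sub_distrib, Equiv.sum_comp σ fun j => ‖r j - b j‖]
    linarith [h σ]) (half_pos hε)
  obtain ⟨x, hx⟩ := key r b (fun i => φ i + ε / 2) (fun j => ‖r j - b j‖ - φ j)
    fun i j => by linarith [hφ i j]
  have s : √2 ≤ 2 := Real.sqrt_le_iff.2 ⟨by norm_num, by norm_num⟩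
  have : F x ≤ ε := sup'_le _ _ fun j _ => by
    have := hx j j
    simp only [g]
    nlinarith
  linarith [le i o, ho x]

theorem result (V : Type) [NormedAddCommGroup V] [InnerProductSpace ℝ V] (n : ℕ) (hn : 1 ≤ n)
    (r b : Fin n → V)
    (h : ∀ σ : Equiv.Perm (Fin n), ∑ i, ‖r i - b (σ i)‖ ≤ ∑ i, ‖r i - b i‖) :
    ∃ o : V, ∀ i, ‖r i - o‖ + ‖b i - o‖ ≤ √2 * ‖r i - b i‖ := by
  obtain ⟨n, rfl⟩ : ∃ m, n = m + 1 := ⟨n - 1, by omega⟩
  let W := Submodule.span ℝ (range r ∪ range b)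
  have : FiniteDimensional ℝ W :=
    FiniteDimensional.span_of_finite ℝ ((finite_range r).union (finite_range b))
  obtain ⟨o, ho⟩ := fd (V := W) (fun i => ⟨r i, Submodule.subset_span (Or.inl ⟨i, rfl⟩)⟩)
    (fun i => ⟨b i, Submodule.subset_span (Or.inr ⟨i, rfl⟩)⟩) h
  exact ⟨o, ho⟩

end Pool.Agent.Results.MP_be7f3b_co.Holds
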